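import Mathlib
import Pool.Agent.W593.IR.Stm3

/-!
# Polynomial inequality, k = 4
-/

set_option autoImplicit false

namespace Pool.Agent.W846.IR

open Finset Pool.Agent.W593.IR

theorem Ph42 (ρ : ℝ) : Ph 4 2 ρ = 1 - 2 * ρ ^ 3 + 5 / 4 * ρ ^ 4 := by
  have h1 : Nat.choose 4 2 = 6 := by decide
  have h2 : Nat.choose 4 3 = 4 := by decide
  simp only [Ph, sum_range_succ, sum_range_zero, h1, h2, Nat.choose_zero_right, Nat.choose_one_right,
    Nat.choose_self]
  norm_num
  ring

theorem Ph43 (ρ : ℝ) : Ph 4 3 ρ = 1 - 2 * ρ ^ 2 + 16 / 9 * ρ ^ 3 - 13 / 27 * ρ ^ 4 := by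
  have h1 : Nat.choose 4 2 = 6 := by decide
  have h2 : Nat.choose 4 3 = 4 := by decide
  simp only [Ph, sum_range_succ, sum_range_zero, h1, h2, Nat.choose_zero_right, Nat.choose_one_right,
    Nat.choose_self]
  norm_num
  ring

theorem ph4 : S_PH4 := by
  intro ρ h0 h1
  rw [Ph42, Ph43]
  rcases le_total ρ (89302 / 100000) with h | h
  · obtain ⟨t, rfl⟩ : ∃ t, ρ = 89302 / 100000 - t := ⟨89302 / 100000 - ρ, by ring⟩
    have ht : 0 ≤ t := by linarith
    have ht' : t ≤ 3 / 100 := by linarith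
    have a2 : 0 ≤ t ^ 2 := by positivity
    have a3 : t ^ 3 ≤ 3 / 100 * t ^ 2 := by nlinarith
    have a3' : 0 ≤ t ^ 3 := by positivity
    have a4 : t ^ 4 ≤ 3 / 100 * t ^ 3 := by nlinarith
    have a4' : 0 ≤ t ^ 4 := by positivity
    have b2 : t ^ 2 ≤ 3 / 100 * t := by nlinarith
    constructor
    · refine (min_le_right _ _).trans ?_
      nlinarith
    · refine (min_le_right _ _).trans ?_
      nlinarith
  · obtain ⟨t, rfl⟩ : ∃ t, ρ = 89302 / 100000 + t := ⟨ρ - 89302 / 100000, by ring⟩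
    have ht : 0 ≤ t := by linarith
    have a2 : 0 ≤ t ^ 2 := by positivity
    have a3' : 0 ≤ t ^ 3 := by positivity
    have a4' : 0 ≤ t ^ 4 := by positivity
    constructor
    · refine (min_le_left _ _).trans ?_
      nlinarith
    · refine (min_le_left _ _).trans ?_
      nlinarith

end Pool.Agent.W846.IR
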